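import Pool.Agent.X886.CFN.Final

/-!
# Continued-fraction normal numbers which are not distribution normal
-/

set_option autoImplicit false

namespace Pool.Agent.Results.MP_2274bf_nt.ContinuedFractionNormal

open Filter Topology MeasureTheory

/-- `T_{Q,n}(x) = q_1 q_2 ... q_n x mod 1`; here `Q i` is `q_{i+1}`. -/
noncomputable def T (Q : ℕ → ℕ) (n : ℕ) (x : ℝ) : ℝ :=
  Int.fract ((∏ i ∈ Finset.range n, (Q i : ℝ)) * x)

/-- `x` is `Q`-distribution normal: the sequence `T_{Q,n}(x)`, `n ≥ 0`, is uniformly distributed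
modulo one. -/
def DN (Q : ℕ → ℕ) (x : ℝ) : Prop := ∀ s t : ℝ, 0 ≤ s → s ≤ t → t ≤ 1 →
  Tendsto (fun N : ℕ =>
    (((Finset.range N).filter (fun n => s ≤ T Q n x ∧ T Q n x < t)).card : ℝ) / (N : ℝ))
    atTop (𝓝 (t - s))

/-- The Gauss map `1/y mod 1`. -/
noncomputable def gauss (y : ℝ) : ℝ := Int.fract (1 / y)

/-- The partial quotient `a_{n+1}` of `y` in `(0,1)`. -/
noncomputable def pq (y : ℝ) (n : ℕ) : ℤ := ⌊1 / (gauss^[n] y)⌋

/-- The numbers in `(0,1)` whose continued fraction begins with the word `w`. -/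
def cyl (w : List ℕ) : Set ℝ :=
  {y | 0 < y ∧ y < 1 ∧ ∀ (i : ℕ) (h : i < w.length), pq y i = (w[i] : ℤ)}

/-- The Gauss measure. -/
noncomputable def gmeas (S : Set ℝ) : ℝ := (∫ y in S, 1 / (1 + y)) / Real.log 2

/-- `x` is normal with respect to the regular continued fraction expansion. -/
def NCF (x : ℝ) : Prop := Irrational x ∧ ∀ w : List ℕ, w ≠ [] → (∀ m ∈ w, 1 ≤ m) →
  Tendsto (fun N : ℕ =>
    (Set.ncard {n : ℕ | n < N ∧ ∀ (i : ℕ) (h : i < w.length),
      pq (Int.fract x) (n + i) = (w[i] : ℤ)} : ℝ) / (N : ℝ))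
    atTop (𝓝 (gmeas (cyl w)))

open Pool.Agent.R357.CF Pool.Agent.X886.CFN

theorem gauss_eq : gauss = Pool.Agent.W811.Stu.gauss := by
  funext y
  unfold gauss Pool.Agent.W811.Stu.gauss
  rw [one_div]

theorem pq_succ (y : ℝ) (n : ℕ) : pq y (n + 1) = pq (gauss y) n := by
  unfold pq
  rw [Function.iterate_succ_apply]

/-- the partial quotients of the value of a sequence of digits -/
theorem pq_X {a : ℕ → ℕ} (ha : ∀ n, 1 ≤ a n) (n : ℕ) : pq (X a) n = a n := by
  have h := X_mem (sh_good ha (n + 1))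
  unfold pq
  rw [gauss_eq, gauss_iter_X ha, X_eq (sh_good ha n), sh_sh, one_div_one_div]
  rw [show sh a n 0 = a n by simp [sh], Int.floor_natCast_add, Int.floor_eq_zero_iff.2 ⟨h.1.le, h.2⟩]
  simp

/-! ### cylinders -/

theorem cyl_sub {w : List ℕ} : ∀ {y : ℝ}, y ∈ Set.Ico (0 : ℝ) 1 →
    (∀ (i : ℕ) (h : i < w.length), pq y i = (w[i] : ℤ)) → y ∈ phi w '' Set.Ico 0 1 := by
  induction w with
  | nil => exact fun {y} hy _ => ⟨y, hy, rfl⟩
  | cons d w ih =>
    intro y hy h
    have h0 := h 0 (by simp)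
    have hg : gauss y ∈ Set.Ico (0 : ℝ) 1 := ⟨Int.fract_nonneg _, Int.fract_lt_one _⟩
    obtain ⟨z, hz, hz2⟩ := ih hg fun i hi => by
      have := h (i + 1) (by simpa using hi)
      rw [pq_succ] at this
      simpa using this
    refine ⟨z, hz, ?_⟩
    simp only [phi]
    rw [hz2]
    simp only [pq, Function.iterate_zero, id, List.getElem_cons_zero] at h0
    have h1 : (d : ℝ) + gauss y = 1 / y := by
      unfold gauss
      have h2 := Int.floor_add_fract (1 / y)
      rw [h0] at h2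
      exact_mod_cast h2
    rw [h1, one_div_one_div]

theorem cyl_sup {w : List ℕ} (hw : Good w) {z : ℝ} (hz : z ∈ Set.Ioo (0 : ℝ) 1) :
    ∀ (i : ℕ) (h : i < w.length), pq (phi w z) i = (w[i] : ℤ) := by
  induction w with
  | nil =>
    intro i h
    simp at h
  | cons d w ih =>
    obtain ⟨h1, h2⟩ := hw.cons
    have h3 := phi_mem h2 hz
    intro i hi
    cases i with
    | zero =>
      simp only [pq, Function.iterate_zero, id, phi, List.getElem_cons_zero]
      rw [one_div_one_div, Int.floor_natCast_add, Int.floor_eq_zero_iff.2 ⟨h3.1.le, h3.2⟩]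
      simp
    | succ i =>
      rw [pq_succ, gauss_eq]
      simp only [phi]
      rw [gauss_one_div h3]
      have := ih h2 i (by simpa using hi)
      simpa using this

theorem Cy_sub {w : List ℕ} (hw : Good w) : Cy w ⊆ cyl w := by
  rintro _ ⟨z, hz, rfl⟩
  have h := phi_mem hw hz
  exact ⟨h.1, h.2, cyl_sup hw hz⟩

theorem cyl_sub' {w : List ℕ} : cyl w ⊆ Cy w ∪ {phi w 0} := by
  rintro y ⟨h0, h1, h2⟩
  obtain ⟨z, hz, rfl⟩ := cyl_sub ⟨h0.le, h1⟩ h2
  rcases hz.1.eq_or_lt with h | h
  · right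
    rw [← h]
    rfl
  · left
    exact ⟨z, ⟨h, hz.2⟩, rfl⟩

theorem cyl_ae {w : List ℕ} (hw : Good w) : cyl w =ᵐ[volume] Cy w := by
  rw [ae_eq_set]
  constructor
  · refine measure_mono_null (t := {phi w 0}) ?_ Real.volume_singleton
    intro y hy
    rcases cyl_sub' hy.1 with h | h
    · exact absurd h hy.2
    · exact h
  · rw [Set.sdiff_eq_empty.2 (Cy_sub hw)]
    exact measure_empty

theorem integral_Ioo' {a b : ℝ} (ha : 0 ≤ a) (hab : a ≤ b) :
    ∫ y in Set.Ioo a b, 1 / (1 + y) = Real.log (1 + b) - Real.log (1 + a) := by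
  rw [← integral_Ioc_eq_integral_Ioo, ← intervalIntegral.integral_of_le hab,
    intervalIntegral.integral_comp_add_left (fun x : ℝ => 1 / x) 1,
    integral_one_div_of_pos (by linarith) (by linarith), Real.log_div (by linarith) (by linarith)]

theorem gmeas_cyl {w : List ℕ} (hw : Good w) : gmeas (cyl w) = gs w := by
  unfold gmeas gs
  rw [setIntegral_congr_set (cyl_ae hw)]
  congr 1
  unfold Cy
  rw [image_phi hw one_pos le_rfl]
  have h0 := phi_mem_Icc hw (z := 0) ⟨le_rfl, zero_le_one⟩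
  have h1 := phi_mem_Icc hw (z := 1) ⟨zero_le_one, le_rfl⟩
  rcases le_total (phi w 0) (phi w 1) with h | h
  · rw [min_eq_left h, max_eq_right h, integral_Ioo' h0.1 h, abs_sub_comm, abs_of_nonneg]
    have := Real.log_le_log (by linarith [h0.1]) (show 1 + phi w 0 ≤ 1 + phi w 1 by linarith)
    linarith
  · rw [min_eq_right h, max_eq_left h, integral_Ioo' h1.1 h, abs_of_nonneg]
    have := Real.log_le_log (by linarith [h1.1]) (show 1 + phi w 1 ≤ 1 + phi w 0 by linarith)
    linarith

/-! ### the two properties -/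

theorem ncf_X {a : ℕ → ℕ} (ha : ∀ n, 1 ≤ a n)
    (hf : ∀ s, Good s → s ≠ [] → Tendsto (fun N : ℕ => (occS s a N : ℝ) / N) atTop (𝓝 (gs s))) :
    NCF (X a) := by
  classical
  refine ⟨X_irr ha, fun w hw hg => ?_⟩
  rw [gmeas_cyl hg]
  refine (hf w hg hw).congr fun N => ?_
  congr 2
  have hm := X_mem ha
  rw [Int.fract_eq_self.2 ⟨hm.1.le, hm.2⟩]
  have e : {n : ℕ | n < N ∧ ∀ (i : ℕ) (h : i < w.length), pq (X a) (n + i) = (w[i] : ℤ)} =
      ↑((Finset.range N).filter fun n => ∀ i < w.length, some (a (n + i)) = w[i]?) := by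
    ext n
    simp only [Set.mem_ofPred_eq, Finset.coe_filter, Finset.mem_range]
    refine and_congr_right fun _ => forall₂_congr fun i hi => ?_
    rw [pq_X ha, List.getElem?_eq_getElem hi, Option.some_inj]
    exact Nat.cast_inj
  rw [e, Set.ncard_coe_finset]
  unfold occS
  congr

theorem not_DN {P : ℕ → ℕ} {x : ℝ} (hP : ∀ K, ∃ n, K ≤ n ∧ ∀ i, n ≤ i → i ≤ 4 * n →
    ∃ z : ℤ, |(∏ j ∈ Finset.range i, (P j : ℝ)) * x - z| ≤ 1 / 8) : ¬ DN P x := by
  classical
  intro h
  have h1 := h (1 / 4) (3 / 4) (by norm_num) (by norm_num) (by norm_num)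
  rw [Metric.tendsto_atTop] at h1
  obtain ⟨N0, hN0⟩ := h1 (1 / 8) (by norm_num)
  obtain ⟨n, hn, hz⟩ := hP (N0 + 1)
  have h2 := hN0 (4 * n) (by omega)
  have hcard : ((Finset.range (4 * n)).filter
      (fun i => 1 / 4 ≤ T P i x ∧ T P i x < 3 / 4)).card ≤ n := by
    calc _ ≤ (Finset.range n).card := by
          apply Finset.card_le_card
          intro i hi
          rw [Finset.mem_filter, Finset.mem_range] at hi
          rw [Finset.mem_range]
          by_contra hcon
          obtain ⟨z, hz⟩ := hz i (not_lt.1 hcon) hi.1.le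
          obtain ⟨-, h3, h4⟩ := hi
          unfold T at h3 h4
          set y := (∏ j ∈ Finset.range i, (P j : ℝ)) * x
          rw [abs_le] at hz
          have h5 := Int.floor_add_fract y
          have h6 : ((⌊y⌋ - z : ℤ) : ℝ) < 1 := by
            push_cast
            linarith [hz.2]
          have h7 : (-1 : ℝ) < ((⌊y⌋ - z : ℤ) : ℝ) := by
            push_cast
            linarith [hz.1]
          have h8 : ⌊y⌋ - z < 1 := by exact_mod_cast h6
          have h9 : -1 < ⌊y⌋ - z := by exact_mod_cast h7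
          have h10 : ⌊y⌋ = z := by omega
          rw [h10] at h5
          linarith [hz.2]
      _ = n := Finset.card_range n
  have hn0 : (0 : ℝ) < n := by
    have : 0 < n := by omega
    exact_mod_cast this
  have hc : (((Finset.range (4 * n)).filter
      (fun i => 1 / 4 ≤ T P i x ∧ T P i x < 3 / 4)).card : ℝ) ≤ n := by exact_mod_cast hcard
  rw [Real.dist_eq, abs_lt] at h2
  have h3 : (((Finset.range (4 * n)).filter
      (fun i => 1 / 4 ≤ T P i x ∧ T P i x < 3 / 4)).card : ℝ) / ((4 * n : ℕ) : ℝ) ≤ 1 / 4 := by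
    push_cast
    rw [div_le_iff₀ (by positivity)]
    linarith
  linarith [h2.1]

/-- For every sequence `Q_0, Q_1, ...` of basic sequences there is a number which is normal with
respect to the regular continued fraction expansion and not distribution normal with respect to
any `Q_k`. In particular `N_CF` is not contained in `DN(Q)`, hence `DN(Q) ≠ N_CF`, for every basic
sequence `Q`. -/
theorem result (Q : ℕ → ℕ → ℕ) (hQ : ∀ k n, 2 ≤ Q k n) :
    ∃ x : ℝ, NCF x ∧ ∀ k, ¬ DN (Q k) x := by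
  have hF : Fam (fun k n => ∏ i ∈ Finset.range n, Q k i) :=
    { zero := fun j => by simp
      two := fun j n => by
        rw [Finset.prod_range_succ, mul_comm]
        exact Nat.mul_le_mul_left _ (hQ j n)
      dvd := fun j n => by
        rw [Finset.prod_range_succ]
        exact dvd_mul_right _ _ }
  obtain ⟨a, ha, hf, hm⟩ := core hF
  refine ⟨X a, ncf_X ha hf, fun k => not_DN fun K => ?_⟩
  obtain ⟨n, hn, h⟩ := hm k K
  refine ⟨n, hn, fun i hi1 hi2 => ?_⟩
  obtain ⟨z, hz⟩ := h i hi1 hi2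
  refine ⟨z, ?_⟩
  push_cast at hz
  exact hz

end Pool.Agent.Results.MP_2274bf_nt.ContinuedFractionNormal
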